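import Pool.Agent.Run7.h104.Q2.Defs

set_option autoImplicit false

/-!
# MP_5bfbcb_an, Q2: piece NICE
-/

namespace Pool.Agent.Run7.h669.Q2

open MeasureTheory AddCircle Complex Set Filter Topology Pool.Agent.W767.HL
  Pool.Agent.Run7.h104.Q2

noncomputable section

/-- The Poisson integral of the monomial of exponent `n`. -/
def pv (n : ℤ) (z : ℂ) : ℂ := if 0 ≤ n then z ^ n else (starRingEnd ℂ) z ^ (-n)

lemma int_mono {z : ℂ} (hz : ‖z‖ < 1) (n : ℤ) :
    ∫ θ, (P z θ : ℂ) * ze θ ^ n ∂mu = pv n z := by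
  unfold pv
  split_ifs with h
  · lift n to ℕ using h
    simpa using poisson (f := fun z => z ^ n) (differentiable_id.pow n) hz
  · obtain ⟨k, hk⟩ : ∃ k : ℕ, n = -(k : ℤ) := ⟨(-n).toNat, by omega⟩
    subst hk
    have h1 := poisson (f := fun z => z ^ k) (differentiable_id.pow k) hz
    have h2 : ∀ θ, (P z θ : ℂ) * ze θ ^ (-(k : ℤ))
        = (starRingEnd ℂ) ((P z θ : ℂ) * ze θ ^ k) := by
      intro θ
      rw [map_mul, Complex.conj_ofReal, map_pow, conj_ze, zpow_neg, zpow_natCast, inv_pow]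
    simp only [h2]
    rw [integral_conj, h1, neg_neg, zpow_natCast, map_pow]

/-- Poisson formula for Laurent polynomials. -/
lemma int_ev {z : ℂ} (hz : ‖z‖ < 1) (F : ℤ →₀ ℂ) :
    ∫ θ, (P z θ : ℂ) * ev F (ze θ) ∂mu = ∑ n ∈ F.support, F n * pv n z := by
  have h : ∀ θ, (P z θ : ℂ) * ev F (ze θ)
      = ∑ n ∈ F.support, F n * ((P z θ : ℂ) * ze θ ^ n) := by
    intro θ
    rw [ev_eq_sum, Finsupp.sum, Finset.mul_sum]
    exact Finset.sum_congr rfl fun n _ => by ring
  simp only [h]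
  rw [integral_finsetSum]
  · refine Finset.sum_congr rfl fun n _ => ?_
    rw [integral_const_mul, int_mono hz]
  · intro n _
    refine Integrable.const_mul ?_ _
    refine integrable_of_cont (Continuous.mul (Complex.continuous_ofReal.comp (continuous_P hz)) ?_)
    exact Continuous.zpow₀ continuous_ze n fun θ => Or.inl (ze_ne θ)

lemma int_ev_zero (F : ℤ →₀ ℂ) : ∫ θ, ev F (ze θ) ∂mu = F 0 := by
  have h := int_ev (z := 0) (by simp) F
  have hP : ∀ θ, P 0 θ = 1 := by
    intro θ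
    simp [P, norm_ze]
  simp only [hP, Complex.ofReal_one, one_mul] at h
  rw [h]
  have hpv : ∀ n : ℤ, n ≠ 0 → pv n 0 = 0 := by
    intro n hn
    unfold pv
    split_ifs with h1
    · exact zero_zpow n hn
    · rw [map_zero]
      exact zero_zpow _ (by omega)
  by_cases h0 : (0 : ℤ) ∈ F.support
  · rw [Finset.sum_eq_single 0]
    · simp [pv]
    · intro n _ hn
      rw [hpv n hn, mul_zero]
    · exact fun h => absurd h0 h
  · rw [Finset.sum_eq_zero]
    · exact (Finsupp.notMem_support_iff.mp h0).symm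
    · intro n hn
      rw [hpv n (fun h => h0 (h ▸ hn)), mul_zero]

lemma coeff_le_one {G : ℤ →₀ ℂ} (hn : ∫ θ, ‖ev G (ze θ)‖ ^ 2 ∂mu ≤ 1) (n : ℤ) : ‖G n‖ ≤ 1 := by
  have h1 : G n = ∫ θ, ev (sh (-n) G) (ze θ) ∂mu := by
    rw [int_ev_zero, sh_apply]
    simp
  have hc := continuous_ev_ze G
  rw [h1]
  refine (norm_integral_le_integral_norm _).trans ?_
  have h2 : ∀ θ, ‖ev (sh (-n) G) (ze θ)‖ ≤ (1 / 2 : ℝ) + (1 / 2) * ‖ev G (ze θ)‖ ^ 2 := by
    intro θ
    rw [ev_sh _ _ (ze_ne θ), norm_mul, norm_zpow, norm_ze, one_zpow, one_mul]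
    nlinarith [sq_nonneg (‖ev G (ze θ)‖ - 1)]
  have i1 : Integrable (fun _ : Ci => (1 / 2 : ℝ)) mu := integrable_of_cont continuous_const
  have i2 : Integrable (fun θ => (1 / 2 : ℝ) * ‖ev G (ze θ)‖ ^ 2) mu :=
    integrable_of_cont (continuous_const.mul (hc.norm.pow 2))
  calc ∫ θ, ‖ev (sh (-n) G) (ze θ)‖ ∂mu
      ≤ ∫ θ, (1 / 2 : ℝ) + (1 / 2) * ‖ev G (ze θ)‖ ^ 2 ∂mu := by
        exact integral_mono (integrable_of_cont (continuous_ev_ze _).norm) (i1.add i2) h2
    _ = 1 / 2 + (1 / 2) * ∫ θ, ‖ev G (ze θ)‖ ^ 2 ∂mu := by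
        rw [integral_add i1 i2, integral_const_mul]
        simp
    _ ≤ 1 := by linarith

lemma norm_diff {z : ℂ} (hz0 : z ≠ 0) (hz : ‖z‖ < 1) (k : ℕ) :
    ‖z ^ (-(k : ℤ)) - (starRingEnd ℂ) z ^ k‖ ≤ 2 * (k * dep z) * Real.exp (k * dep z) := by
  have hp : 0 < ‖z‖ := norm_pos_iff.mpr hz0
  have hd : 0 ≤ dep z := by
    unfold dep
    have := Real.log_nonpos hp.le hz.le
    linarith
  have he : ‖z‖ = Real.exp (-dep z) := by
    unfold dep
    rw [neg_neg, Real.exp_log hp]
  have h1 : z ^ (-(k : ℤ)) - (starRingEnd ℂ) z ^ k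
      = z ^ (-(k : ℤ)) * (1 - (‖z‖ : ℂ) ^ (2 * k)) := by
    have h2 : (starRingEnd ℂ) z ^ k * z ^ k = (‖z‖ : ℂ) ^ (2 * k) := by
      rw [← mul_pow, mul_comm, Complex.mul_conj, Complex.normSq_eq_norm_sq, pow_mul]
      push_cast
      rfl
    rw [← h2, zpow_neg, zpow_natCast]
    field_simp
  rw [h1, norm_mul, norm_zpow]
  have h3 : ‖(1 : ℂ) - (‖z‖ : ℂ) ^ (2 * k)‖ = 1 - Real.exp (-(2 * (k * dep z))) := by
    have h4 : ((1 : ℂ) - (‖z‖ : ℂ) ^ (2 * k)) = ((1 - ‖z‖ ^ (2 * k) : ℝ) : ℂ) := by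
      push_cast
      rfl
    rw [h4, Complex.norm_real, Real.norm_of_nonneg, he, ← Real.exp_nat_mul]
    · congr 2
      push_cast
      ring
    · have := pow_le_one₀ (n := 2 * k) hp.le hz.le
      linarith
  have h5 : ‖z‖ ^ (-(k : ℤ)) = Real.exp (k * dep z) := by
    rw [zpow_neg, zpow_natCast, he, ← Real.exp_nat_mul, ← Real.exp_neg]
    congr 1
    ring
  rw [h3, h5]
  have h6 := Real.add_one_le_exp (-(2 * (k * dep z)))
  have h7 : 1 - Real.exp (-(2 * (k * dep z))) ≤ 2 * (k * dep z) := by linarith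
  calc Real.exp (k * dep z) * (1 - Real.exp (-(2 * (k * dep z))))
      ≤ Real.exp (k * dep z) * (2 * (k * dep z)) :=
        mul_le_mul_of_nonneg_left h7 (Real.exp_pos _).le
    _ = 2 * (k * dep z) * Real.exp (k * dep z) := by ring

/-- Difference between a Laurent polynomial and its Poisson integral. -/
lemma diff_le {m : ℕ → ℕ} (hm : StrictMono m) (hm0 : m 0 = 0) {F : ℤ →₀ ℂ} {a b : ℕ}
    (hF : ∀ n : ℤ, n < 0 → F n ≠ 0 → ∃ j, a < j ∧ j ≤ b ∧ n = -(m j : ℤ)) {z : ℂ} (hz0 : z ≠ 0)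
    (hz : ‖z‖ < 1) :
    ‖ev F z - ∫ θ, (P z θ : ℂ) * ev F (ze θ) ∂mu‖
      ≤ ∑ j ∈ Finset.Ioc a b, ‖F (-(m j : ℤ))‖ * (2 * (m j * dep z) * Real.exp (m j * dep z)) := by
  rw [int_ev hz, ev_eq_sum, Finsupp.sum, ← Finset.sum_sub_distrib]
  set g : ℤ → ℝ := fun n => ‖F n * z ^ n - F n * pv n z‖ with hg
  have hg0 : ∀ n, 0 ≤ g n := fun n => norm_nonneg _
  have hinj : ∀ i ∈ Finset.Ioc a b, ∀ j ∈ Finset.Ioc a b, -(m i : ℤ) = -(m j : ℤ) → i = j := by
    intro i _ j _ h
    exact hm.injective (by exact_mod_cast neg_injective h)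
  calc ‖∑ n ∈ F.support, (F n * z ^ n - F n * pv n z)‖ ≤ ∑ n ∈ F.support, g n :=
        norm_sum_le _ _
    _ ≤ ∑ n ∈ (Finset.Ioc a b).image (fun j => -(m j : ℤ)), g n := by
        have h1 : ∑ n ∈ F.support, g n
            = ∑ n ∈ F.support ∩ (Finset.Ioc a b).image (fun j => -(m j : ℤ)), g n := by
          symm
          refine Finset.sum_subset Finset.inter_subset_left ?_
          intro n hn hn2
          by_cases h0 : 0 ≤ n
          · simp [hg, pv, h0]
          · exfalso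
            obtain ⟨j, h1, h2, h3⟩ := hF n (by omega) (Finsupp.mem_support_iff.mp hn)
            exact hn2 (Finset.mem_inter.mpr ⟨hn, Finset.mem_image.mpr
              ⟨j, Finset.mem_Ioc.mpr ⟨h1, h2⟩, h3.symm⟩⟩)
        rw [h1]
        exact Finset.sum_le_sum_of_subset_of_nonneg Finset.inter_subset_right
          fun n _ _ => hg0 n
    _ = ∑ j ∈ Finset.Ioc a b, g (-(m j : ℤ)) := Finset.sum_image hinj
    _ ≤ _ := by
        refine Finset.sum_le_sum fun j hj => ?_
        have hj1 : 0 < m j := by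
          have := hm (show 0 < j from by
            have := (Finset.mem_Ioc.mp hj).1
            omega)
          omega
        simp only [hg]
        rw [← mul_sub, norm_mul]
        refine mul_le_mul_of_nonneg_left ?_ (norm_nonneg _)
        have h1 : pv (-(m j : ℤ)) z = (starRingEnd ℂ) z ^ (m j) := by
          unfold pv
          rw [if_neg (by omega), neg_neg, zpow_natCast]
        rw [h1]
        exact norm_diff hz0 hz _

lemma sum_m_le {η : ℝ} {m : ℕ → ℕ} (hsep : ∀ j, 1 ≤ j → η * m j + m (j - 1) ≤ m j) (a b : ℕ)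
    (hab : a ≤ b) : η * ∑ j ∈ Finset.Ioc a b, (m j : ℝ) ≤ m b - m a := by
  induction b, hab using Nat.le_induction with
  | base => simp
  | succ b hb ih =>
      rw [Finset.sum_Ioc_succ_top (by omega), mul_add]
      have := hsep (b + 1) (by omega)
      simp only [Nat.add_sub_cancel] at this
      linarith

/-- Sum over a block. -/
lemma block_le {η : ℝ} (hη : 0 < η) {m : ℕ → ℕ} (hm : StrictMono m)
    (hsep : ∀ j, 1 ≤ j → η * m j + m (j - 1) ≤ m j) {a b : ℕ} (hab : a ≤ b) {c : ℕ → ℝ} {B X d : ℝ}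
    (hc : ∀ j, a < j → j ≤ b → c j ≤ B) (hB : 0 ≤ B) (hd : 0 ≤ d)
    (hX : m b * d ≤ X) :
    ∑ j ∈ Finset.Ioc a b, c j * (2 * (m j * d) * Real.exp (m j * d))
      ≤ B * (2 * X * Real.exp X) / η := by
  have h1 : ∀ j ∈ Finset.Ioc a b, c j * (2 * (m j * d) * Real.exp (m j * d))
      ≤ B * (2 * d * Real.exp X) * m j := by
    intro j hj
    obtain ⟨hj1, hj2⟩ := Finset.mem_Ioc.mp hj
    have h2 : (m j : ℝ) ≤ m b := by exact_mod_cast hm.monotone hj2
    have h3 : m j * d ≤ X := (mul_le_mul_of_nonneg_right h2 hd).trans hX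
    have h4 : (0 : ℝ) ≤ m j := Nat.cast_nonneg _
    calc c j * (2 * (m j * d) * Real.exp (m j * d))
        ≤ B * (2 * (m j * d) * Real.exp (m j * d)) :=
          mul_le_mul_of_nonneg_right (hc j hj1 hj2) (by positivity)
      _ ≤ B * (2 * (m j * d) * Real.exp X) :=
          mul_le_mul_of_nonneg_left (mul_le_mul_of_nonneg_left (Real.exp_le_exp.mpr h3)
            (by positivity)) hB
      _ = B * (2 * d * Real.exp X) * m j := by ring
  refine (Finset.sum_le_sum h1).trans ?_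
  rw [← Finset.mul_sum, le_div_iff₀ hη]
  have h5 := sum_m_le hsep a b hab
  have h6 : (0 : ℝ) ≤ m a := Nat.cast_nonneg _
  calc B * (2 * d * Real.exp X) * (∑ j ∈ Finset.Ioc a b, (m j : ℝ)) * η
      = B * (2 * d * Real.exp X) * (η * ∑ j ∈ Finset.Ioc a b, (m j : ℝ)) := by ring
    _ ≤ B * (2 * d * Real.exp X) * (m b) :=
        mul_le_mul_of_nonneg_left (by linarith) (by positivity)
    _ = B * (2 * (m b * d) * Real.exp X) := by ring
    _ ≤ B * (2 * X * Real.exp X) := by
        refine mul_le_mul_of_nonneg_left (mul_le_mul_of_nonneg_right ?_ (Real.exp_pos _).le) hB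
        linarith

section KKlemmas

variable {m : ℕ → ℕ} {J : ℕ} {G : ℤ →₀ ℂ} {D0 : ℝ}

lemma KK_le (a : ℕ) : KK m J G D0 a ≤ J := Nat.findGreatest_le J

lemma KK_spec {a : ℕ} (h : 1 ≤ KK m J G D0 a) :
    Real.exp (-(2 * (2 ^ a * D0))) ≤ rho2 m J G (KK m J G D0 a) := by
  have h0 : KK m J G D0 a ≠ 0 := by omega
  unfold KK at h0 ⊢
  exact Nat.findGreatest_of_ne_zero rfl h0

lemma KK_succ (hD : 0 ≤ D0) {a : ℕ} (h : 1 ≤ KK m J G D0 a) :
    KK m J G D0 a ≤ KK m J G D0 (a + 1) := by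
  refine Nat.le_findGreatest (KK_le a) ?_
  refine le_trans (Real.exp_le_exp.mpr ?_) (KK_spec h)
  have : (0 : ℝ) ≤ 2 ^ a * D0 := by positivity
  rw [pow_succ]
  linarith

lemma one_le_KK (hD : 0 ≤ D0) (h : 1 ≤ KK m J G D0 0) (a : ℕ) : 1 ≤ KK m J G D0 a := by
  induction a with
  | zero => exact h
  | succ a ih => exact ih.trans (KK_succ hD ih)

lemma coeff_small {a j : ℕ} (h1 : KK m J G D0 a < j) (h2 : j ≤ J) :
    ‖G (-(m j : ℤ))‖ ≤ Real.exp (-(2 ^ a * D0)) := by
  have h3 : rho2 m J G j < Real.exp (-(2 * (2 ^ a * D0))) := by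
    have := Nat.findGreatest_is_greatest h1 h2
    exact not_le.mp this
  have h4 : ‖G (-(m j : ℤ))‖ ^ 2 ≤ rho2 m J G j := by
    unfold rho2
    exact Finset.single_le_sum (f := fun i => ‖G (-(m i : ℤ))‖ ^ 2) (fun i _ => sq_nonneg _)
      (Finset.mem_Icc.mpr ⟨le_rfl, h2⟩)
  have h5 : Real.exp (-(2 * (2 ^ a * D0))) = Real.exp (-(2 ^ a * D0)) ^ 2 := by
    rw [← Real.exp_nat_mul]
    congr 1
    push_cast
    ring
  refine le_of_sq_le_sq ?_ (Real.exp_pos _).le
  rw [← h5]
  exact h4.trans h3.le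

lemma ellf_le {κ : ℝ} {a i : ℕ} (h : a ≤ i) :
    ellf κ m J G D0 i ≤ 2 ^ a * D0 / (κ * m (KK m J G D0 a)) := by
  induction i, h using Nat.le_induction with
  | base =>
      cases a with
      | zero =>
          simp only [ellf, pow_zero, one_mul]
          exact min_le_right _ _
      | succ a =>
          simp only [ellf]
          exact min_le_right _ _
  | succ i hi ih =>
      refine le_trans ?_ ih
      simp only [ellf]
      exact min_le_left _ _

lemma ellf_bound {κ : ℝ} (hκ : 0 < κ) (hD : 0 < D0) (hm : StrictMono m)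
    (h : 1 ≤ KK m J G D0 0) {a i : ℕ} (hai : a ≤ i) {d : ℝ} (hd : d ≤ κ / 4 * ellf κ m J G D0 i) :
    m (KK m J G D0 a) * d ≤ 2 ^ a * D0 / 4 := by
  have h1 := one_le_KK hD.le h a
  have h2 : 0 < m (KK m J G D0 a) := by
    have := hm (show 0 < KK m J G D0 a from by omega)
    omega
  have h3 : (0 : ℝ) < m (KK m J G D0 a) := by exact_mod_cast h2
  have h4 := ellf_le (m := m) (J := J) (G := G) (D0 := D0) (κ := κ) hai
  calc m (KK m J G D0 a) * d
      ≤ m (KK m J G D0 a) * (κ / 4 * (2 ^ a * D0 / (κ * m (KK m J G D0 a)))) := by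
        refine mul_le_mul_of_nonneg_left (hd.trans ?_) h3.le
        exact mul_le_mul_of_nonneg_left h4 (by positivity)
    _ = 2 ^ a * D0 / 4 := by
        field_simp

end KKlemmas

lemma dep_nonneg {z : ℂ} (hz0 : z ≠ 0) (hz : ‖z‖ < 1) : 0 ≤ dep z := by
  have hp : 0 < ‖z‖ := norm_pos_iff.mpr hz0
  unfold dep
  have := Real.log_nonpos hp.le hz.le
  linarith

lemma cut_apply (m : ℕ → ℕ) (K : ℕ) (G : ℤ →₀ ℂ) (n : ℤ) :
    cut m K G n = if -(m K : ℤ) ≤ n then G n else 0 := by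
  unfold cut
  rw [Finsupp.filter_apply]

lemma half_sq_le_exp {x : ℝ} (hx : 0 ≤ x) : x ^ 2 / 2 ≤ Real.exp x := by
  have := Real.quadratic_le_exp_of_nonneg hx
  nlinarith

lemma norm_int_le {z : ℂ} (hz : ‖z‖ < 1) {F A B : ℤ →₀ ℂ} (h : F = A - B) :
    ‖∫ θ, (P z θ : ℂ) * ev F (ze θ) ∂mu‖
      ≤ PI (fun θ => ‖ev A (ze θ)‖) z + PI (fun θ => ‖ev B (ze θ)‖) z := by
  have i1 : Integrable (fun θ => P z θ * ‖ev A (ze θ)‖) mu :=
    integrable_of_cont ((continuous_P hz).mul (continuous_ev_ze A).norm)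
  have i2 : Integrable (fun θ => P z θ * ‖ev B (ze θ)‖) mu :=
    integrable_of_cont ((continuous_P hz).mul (continuous_ev_ze B).norm)
  unfold PI
  rw [← integral_add i1 i2]
  refine (norm_integral_le_integral_norm _).trans ?_
  refine integral_mono ?_ (i1.add i2) fun θ => ?_
  · exact integrable_of_cont (((Complex.continuous_ofReal.comp (continuous_P hz)).mul
      (continuous_ev_ze F)).norm)
  · rw [norm_mul, Complex.norm_real, Real.norm_of_nonneg (P_pos hz θ).le, h, ev_sub, ← mul_add]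
    exact mul_le_mul_of_nonneg_left (norm_sub_le _ _) (P_pos hz θ).le

theorem prove_NICE : S_NICE := by
  intro L η κ hκ hκ1 hη
  refine ⟨288 / η + 16, fun D0 hD m J G hG hK => ?_⟩
  have hq : 0 < 288 / η := by positivity
  have hD0 : 16 ≤ D0 := by linarith
  have hDp : 0 < D0 := by linarith
  have hDη : 288 ≤ D0 * η := by
    have h1 : 288 / η ≤ D0 := by linarith
    rwa [div_le_iff₀ hη] at h1
  have hm := hG.hm
  have hm0 := hG.hm0
  have hη1 := hG.hη1
  have hb1 : ∀ j, ‖G (-(m j : ℤ))‖ ≤ 1 := fun j => coeff_le_one hG.hn _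
  -- negative frequencies of `G`
  have hneg : ∀ n : ℤ, n < 0 → G n ≠ 0 → ∃ j, 1 ≤ j ∧ n = -(m j : ℤ) := by
    intro n hn hGn
    by_contra hcon
    push Not at hcon
    have h1 : ∀ j : ℕ, n < -(m j : ℤ) := by
      intro j
      induction j with
      | zero => rw [hm0]; simpa using hn
      | succ j ih =>
          by_contra h2
          push Not at h2
          rcases lt_or_eq_of_le h2 with h3 | h3
          · exact hGn (hG.hG2 (j + 1) (by omega) n h3 (by simpa using ih))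
          · exact hcon (j + 1) (by omega) h3.symm
    exact hGn (hG.hJ n (h1 J))
  -- values of the truncations
  have hff : ∀ i : ℕ, ∀ n : ℤ, ff m J G D0 i n = if -(m (KK m J G D0 i) : ℤ) ≤ n then G n else 0 :=
    fun i n => cut_apply _ _ _ _
  -- the bound for a block
  have hblock : ∀ a i : ℕ, a + 1 ≤ i → ∀ z : ℂ, z ≠ 0 → ‖z‖ < 1 →
      dep z ≤ κ / 4 * ellf κ m J G D0 i →
      ∑ j ∈ Finset.Ioc (KK m J G D0 a) (KK m J G D0 (a + 1)),
        ‖G (-(m j : ℤ))‖ * (2 * (m j * dep z) * Real.exp (m j * dep z))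
        ≤ 2 ^ a * D0 / η * Real.exp (-(2 ^ a * D0 / 2)) := by
    intro a i hai z hz0 hz hdz
    have h1 := block_le hη hm hG.hsep (KK_succ hDp.le (one_le_KK hDp.le hK a))
      (c := fun j => ‖G (-(m j : ℤ))‖) (B := Real.exp (-(2 ^ a * D0))) (X := 2 ^ (a + 1) * D0 / 4)
      (d := dep z) (fun j hj1 hj2 => coeff_small hj1 (hj2.trans (KK_le _))) (Real.exp_pos _).le
      (dep_nonneg hz0 hz) (ellf_bound hκ hDp hm hK hai hdz)
    refine h1.trans_eq ?_
    have h2 : Real.exp (-(2 ^ a * D0 / 2)) = Real.exp (-(2 ^ a * D0)) *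
        Real.exp (2 ^ (a + 1) * D0 / 4) := by
      rw [← Real.exp_add]
      congr 1
      rw [pow_succ]
      ring
    rw [h2, pow_succ]
    ring
  constructor
  · intro i z hz0 hz hdz
    set f := ff m J G D0 i with hf
    have hF : ∀ n : ℤ, n < 0 → f n ≠ 0 → ∃ j, 0 < j ∧ j ≤ KK m J G D0 i ∧ n = -(m j : ℤ) := by
      intro n hn hfn
      rw [hf, hff] at hfn
      split_ifs at hfn with h1
      · obtain ⟨j, hj, rfl⟩ := hneg n hn hfn
        refine ⟨j, hj, ?_, rfl⟩
        have : m j ≤ m (KK m J G D0 i) := by omega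
        exact hm.le_iff_le.mp this
      · exact absurd rfl hfn
    have h1 := diff_le hm hm0 hF hz0 hz
    have h2 := norm_int_le hz (F := f) (A := G) (B := G - f) (by abel)
    -- bound of the sum
    have h3 : ∀ a, a ≤ i → ∑ j ∈ Finset.Ioc 0 (KK m J G D0 a),
        ‖G (-(m j : ℤ))‖ * (2 * (m j * dep z) * Real.exp (m j * dep z))
        ≤ D0 / (2 * η) * Real.exp (D0 / 4) + ∑ k ∈ Finset.range a, 8 / (η * D0) * (1 / 2) ^ k := by
      intro a
      induction a with
      | zero =>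
          intro _
          have h4 := block_le hη hm hG.hsep (Nat.zero_le (KK m J G D0 0))
            (c := fun j => ‖G (-(m j : ℤ))‖) (B := 1) (X := D0 / 4)
            (d := dep z) (fun j _ _ => hb1 j) zero_le_one
            (dep_nonneg hz0 hz) (by simpa using ellf_bound hκ hDp hm hK (Nat.zero_le i) hdz)
          rw [Finset.sum_range_zero, add_zero]
          refine h4.trans_eq ?_
          field_simp
          ring
      | succ a ih =>
          intro hai
          have h4 := ih (by omega)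
          have h5 := hblock a i hai z hz0 hz hdz
          rw [← Finset.sum_Ioc_consecutive _ (Nat.zero_le (KK m J G D0 a))
            (KK_succ hDp.le (one_le_KK hDp.le hK a)), Finset.sum_range_succ, ← add_assoc]
          refine add_le_add h4 (h5.trans ?_)
          have hu : 0 < (2 : ℝ) ^ a * D0 := by positivity
          have h6 := half_sq_le_exp (x := 2 ^ a * D0 / 2) (by positivity)
          rw [Real.exp_neg]
          have h7 : (Real.exp (2 ^ a * D0 / 2))⁻¹ ≤ ((2 ^ a * D0 / 2) ^ 2 / 2)⁻¹ :=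
            inv_anti₀ (by positivity) h6
          calc 2 ^ a * D0 / η * (Real.exp (2 ^ a * D0 / 2))⁻¹
              ≤ 2 ^ a * D0 / η * ((2 ^ a * D0 / 2) ^ 2 / 2)⁻¹ :=
                mul_le_mul_of_nonneg_left h7 (by positivity)
            _ = 8 / (η * D0) * (1 / 2) ^ a := by
                rw [one_div, inv_pow]
                field_simp
                ring
    have h4 : ∑ j ∈ Finset.Ioc 0 (KK m J G D0 i),
        ‖f (-(m j : ℤ))‖ * (2 * (m j * dep z) * Real.exp (m j * dep z))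
        = ∑ j ∈ Finset.Ioc 0 (KK m J G D0 i),
        ‖G (-(m j : ℤ))‖ * (2 * (m j * dep z) * Real.exp (m j * dep z)) := by
      refine Finset.sum_congr rfl fun j hj => ?_
      have h5 : m j ≤ m (KK m J G D0 i) := hm.monotone (Finset.mem_Ioc.mp hj).2
      rw [hf, hff, if_pos (by omega)]
    have h5 := h3 i le_rfl
    have h6 : ∑ k ∈ Finset.range i, 8 / (η * D0) * (1 / 2 : ℝ) ^ k ≤ 16 / (η * D0) := by
      rw [← Finset.mul_sum]
      have h7 : ∑ k ∈ Finset.range i, (1 / 2 : ℝ) ^ k ≤ 2 := by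
        have := Summable.sum_le_tsum (f := fun k : ℕ => (1 / 2 : ℝ) ^ k) (Finset.range i)
          (fun k _ => by positivity) summable_geometric_two
        rwa [tsum_geometric_two] at this
      calc 8 / (η * D0) * ∑ k ∈ Finset.range i, (1 / 2 : ℝ) ^ k ≤ 8 / (η * D0) * 2 :=
            mul_le_mul_of_nonneg_left h7 (by positivity)
        _ = 16 / (η * D0) := by ring
    have h7 : D0 / (2 * η) * Real.exp (D0 / 4) + 16 / (η * D0) ≤ Real.exp (D0 / 3) := by
      have e1 : Real.exp (D0 / 3) = Real.exp (D0 / 4) * Real.exp (D0 / 12) := by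
        rw [← Real.exp_add]
        congr 1
        ring
      have e2 := half_sq_le_exp (x := D0 / 12) (by positivity)
      have e3 : 1 ≤ Real.exp (D0 / 4) := Real.one_le_exp (by positivity)
      have e4 : 16 / (η * D0) ≤ D0 / (2 * η) := by
        rw [div_le_div_iff₀ (by positivity) (by positivity)]
        nlinarith [mul_pos hη hDp]
      have e5 : D0 / (2 * η) + D0 / (2 * η) ≤ (D0 / 12) ^ 2 / 2 := by
        have : D0 / (2 * η) + D0 / (2 * η) = D0 / η := by
          field_simp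
          ring
        rw [this, div_le_iff₀ hη]
        nlinarith
      calc D0 / (2 * η) * Real.exp (D0 / 4) + 16 / (η * D0)
          ≤ D0 / (2 * η) * Real.exp (D0 / 4) + D0 / (2 * η) * Real.exp (D0 / 4) := by
            have : 0 < D0 / (2 * η) := by positivity
            nlinarith
        _ = (D0 / (2 * η) + D0 / (2 * η)) * Real.exp (D0 / 4) := by ring
        _ ≤ Real.exp (D0 / 12) * Real.exp (D0 / 4) :=
            mul_le_mul_of_nonneg_right (e5.trans e2) (Real.exp_pos _).le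
        _ = Real.exp (D0 / 3) := by rw [e1, mul_comm]
    rw [h4] at h1
    have h8 : ‖ev f z‖ ≤ ‖ev f z - ∫ θ, (P z θ : ℂ) * ev f (ze θ) ∂mu‖
        + ‖∫ θ, (P z θ : ℂ) * ev f (ze θ) ∂mu‖ := by
      have := norm_add_le (ev f z - ∫ θ, (P z θ : ℂ) * ev f (ze θ) ∂mu)
        (∫ θ, (P z θ : ℂ) * ev f (ze θ) ∂mu)
      rwa [sub_add_cancel] at this
    linarith
  · intro i z hz0 hz hdz
    set f := ff m J G D0 i with hf
    set f' := ff m J G D0 (i + 1) with hf'
    have hKK : KK m J G D0 i ≤ KK m J G D0 (i + 1) := KK_succ hDp.le (one_le_KK hDp.le hK i)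
    have hmK : m (KK m J G D0 i) ≤ m (KK m J G D0 (i + 1)) := hm.monotone hKK
    have hF : ∀ n : ℤ, n < 0 → (f' - f) n ≠ 0 →
        ∃ j, KK m J G D0 i < j ∧ j ≤ KK m J G D0 (i + 1) ∧ n = -(m j : ℤ) := by
      intro n hn hfn
      rw [Finsupp.sub_apply, hf, hf', hff, hff] at hfn
      have hGn : G n ≠ 0 := by
        intro h0
        simp [h0] at hfn
      obtain ⟨j, hj, rfl⟩ := hneg n hn hGn
      by_cases h1 : -(m (KK m J G D0 i) : ℤ) ≤ -(m j : ℤ)
      · rw [if_pos h1, if_pos (by omega), sub_self] at hfn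
        exact absurd rfl hfn
      · by_cases h2 : -(m (KK m J G D0 (i + 1)) : ℤ) ≤ -(m j : ℤ)
        · refine ⟨j, ?_, ?_, rfl⟩
          · have : m (KK m J G D0 i) < m j := by omega
            exact hm.lt_iff_lt.mp this
          · have : m j ≤ m (KK m J G D0 (i + 1)) := by omega
            exact hm.le_iff_le.mp this
        · rw [if_neg h1, if_neg h2, sub_self] at hfn
          exact absurd rfl hfn
    have h1 := diff_le hm hm0 hF hz0 hz
    have h2 := norm_int_le hz (F := f' - f) (A := G - f) (B := G - f') (by abel)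
    have h4 : ∑ j ∈ Finset.Ioc (KK m J G D0 i) (KK m J G D0 (i + 1)),
        ‖(f' - f) (-(m j : ℤ))‖ * (2 * (m j * dep z) * Real.exp (m j * dep z))
        = ∑ j ∈ Finset.Ioc (KK m J G D0 i) (KK m J G D0 (i + 1)),
        ‖G (-(m j : ℤ))‖ * (2 * (m j * dep z) * Real.exp (m j * dep z)) := by
      refine Finset.sum_congr rfl fun j hj => ?_
      obtain ⟨hj1, hj2⟩ := Finset.mem_Ioc.mp hj
      have h5 : m j ≤ m (KK m J G D0 (i + 1)) := hm.monotone hj2
      have h6 : m (KK m J G D0 i) < m j := hm hj1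
      rw [Finsupp.sub_apply, hf, hf', hff, hff, if_pos (by omega), if_neg (by omega), sub_zero]
    have h5 := hblock i (i + 1) le_rfl z hz0 hz hdz
    have h6 : 2 ^ i * D0 / η * Real.exp (-(2 ^ i * D0 / 2)) ≤ Real.exp (-(2 ^ i * D0 / 3)) := by
      set u : ℝ := 2 ^ i * D0 with hu
      have hu1 : D0 ≤ u := by
        have : (1 : ℝ) ≤ 2 ^ i := one_le_pow₀ (by norm_num)
        nlinarith
      have hu0 : 0 < u := by linarith
      have e1 : Real.exp (-(u / 3)) = Real.exp (u / 6) * Real.exp (-(u / 2)) := by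
        rw [← Real.exp_add]
        congr 1
        ring
      rw [e1]
      refine mul_le_mul_of_nonneg_right ?_ (Real.exp_pos _).le
      refine le_trans ?_ (half_sq_le_exp (x := u / 6) (by positivity))
      rw [div_le_iff₀ hη]
      have : 288 ≤ u * η := hDη.trans (mul_le_mul_of_nonneg_right hu1 hη.le)
      nlinarith
    rw [h4] at h1
    have h8 : ‖ev f' z - ev f z‖ ≤ ‖ev (f' - f) z - ∫ θ, (P z θ : ℂ) * ev (f' - f) (ze θ) ∂mu‖
        + ‖∫ θ, (P z θ : ℂ) * ev (f' - f) (ze θ) ∂mu‖ := by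
      have := norm_add_le (ev (f' - f) z - ∫ θ, (P z θ : ℂ) * ev (f' - f) (ze θ) ∂mu)
        (∫ θ, (P z θ : ℂ) * ev (f' - f) (ze θ) ∂mu)
      rw [sub_add_cancel] at this
      rw [← ev_sub]
      exact this
    linarith

end

end Pool.Agent.Run7.h669.Q2

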